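import Pool.Agent.N846.DU.Stm
import Pool.Agent.H921R2.TatePole.Dedekind

/-!
# DIAG: `L(s, π × π~)` to the right of `s = 1` (helper498, project DU of helper846): a copy of `Pool.Agent.N846.DU.Diag` in a different namespace (a name there clashes with one in `Pool.Agent.N846.DU.Core`)
-/

set_option autoImplicit false

namespace Pool.Agent.U828.DU.D

open Complex MeasureTheory NumberField IsDedekindDomain Filter Topology
open Pool.Agent.N846.DT (rpow_exp JK JK_int JK_nonneg cross)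
open Pool.Agent.TH949.LT (norm_exp_sq)
open Pool.Agent.N846.DU

section

variable {K : Type} [Field K] [NumberField K] {n N : ℕ}

theorem two_le_Nv (v : HeightOneSpectrum (𝓞 K)) : 2 ≤ Nv v := by
  have h := Pool.Agent.H921R2.TatePole.two_le_nm v
  unfold Nv
  exact_mod_cast h

theorem Nv_pos (v : HeightOneSpectrum (𝓞 K)) : 0 < Nv v := by
  have := two_le_Nv v
  linarith

theorem log_Nv_pos (v : HeightOneSpectrum (𝓞 K)) : 0 < Real.log (Nv v) :=
  Real.log_pos (by have := two_le_Nv v; linarith)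

theorem LV_nonneg' (x : VX K) : 0 ≤ LV x := by
  unfold LV
  have := (log_Nv_pos x.1).le
  positivity

/-- `log (N v ^ (k + 1))` -/
noncomputable def L2 (y : HeightOneSpectrum (𝓞 K) × ℕ) : ℝ := ((y.2 : ℝ) + 1) * Real.log (Nv y.1)

theorem L2_nonneg (y : HeightOneSpectrum (𝓞 K) × ℕ) : 0 ≤ L2 y := by
  unfold L2
  have := (log_Nv_pos y.1).le
  positivity

theorem L2_ge (y : HeightOneSpectrum (𝓞 K) × ℕ) : Real.log (Nv y.1) ≤ L2 y := by
  unfold L2
  have h2 := (log_Nv_pos y.1).le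
  have h3 : (0 : ℝ) ≤ (y.2 : ℝ) := Nat.cast_nonneg _
  nlinarith

theorem exp_L2 (y : HeightOneSpectrum (𝓞 K) × ℕ) : Real.exp (L2 y) = Nv y.1 ^ (y.2 + 1) := by
  have h : L2 y = ((y.2 + 1 : ℕ) : ℝ) * Real.log (Nv y.1) := by
    unfold L2
    push_cast
    ring
  rw [h, Real.exp_nat_mul, Real.exp_log (Nv_pos y.1)]

/-- the sum over the types -/
noncomputable def U2 (u : VX K → ℂ) (y : HeightOneSpectrum (𝓞 K) × ℕ) : ℝ :=
  ∑' j : ℕ, ‖u (y.1, y.2, j)‖ ^ 2

theorem U2_nonneg (u : VX K → ℂ) (y : HeightOneSpectrum (𝓞 K) × ℕ) : 0 ≤ U2 u y :=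
  tsum_nonneg fun _ => by positivity

theorem sum_U2 {u : VX K → ℂ} {σ : ℝ}
    (h : Summable fun x : VX K => ‖u x‖ ^ 2 * Real.exp (-(σ * LV x))) :
    Summable (fun y => U2 u y * Real.exp (-(σ * L2 y))) ∧
      ∑' x : VX K, ‖u x‖ ^ 2 * Real.exp (-(σ * LV x)) = ∑' y, U2 u y * Real.exp (-(σ * L2 y)) := by
  set e : (HeightOneSpectrum (𝓞 K) × ℕ) × ℕ ≃ HeightOneSpectrum (𝓞 K) × ℕ × ℕ :=
    Equiv.prodAssoc _ _ _ with he
  have h1 : Summable (fun z : (HeightOneSpectrum (𝓞 K) × ℕ) × ℕ =>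
      ‖u (e z)‖ ^ 2 * Real.exp (-(σ * LV (e z)))) := (Equiv.summable_iff e).2 h
  have h2 : ∀ y : HeightOneSpectrum (𝓞 K) × ℕ,
      ∑' j : ℕ, ‖u (e (y, j))‖ ^ 2 * Real.exp (-(σ * LV (e (y, j)))) =
        U2 u y * Real.exp (-(σ * L2 y)) := by
    intro y
    unfold U2
    rw [← tsum_mul_right]
    rfl
  refine ⟨(h1.prod).congr fun y => h2 y, ?_⟩
  rw [← Equiv.tsum_eq e (fun x : VX K => ‖u x‖ ^ 2 * Real.exp (-(σ * LV x))), h1.tsum_prod]
  exact tsum_congr h2

theorem U2_le {S : Finset (HeightOneSpectrum (𝓞 K))} {α : HeightOneSpectrum (𝓞 K) → Fin n → ℂ}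
    {u : VX K → ℂ} (h : Rep n S α u) (y : HeightOneSpectrum (𝓞 K) × ℕ) :
    U2 u y ≤ (n : ℝ) ^ 2 * Real.exp (L2 y) := by
  rw [exp_L2]
  exact (h.local_bound y.1 y.2).2

theorem summable_W {t : ℝ} (ht : 0 < t) :
    Summable fun y : HeightOneSpectrum (𝓞 K) × ℕ =>
      Nv y.1 ^ (-(2 : ℝ)) * Real.exp (-(t * L2 y)) := by
  have h1 : Summable fun v : HeightOneSpectrum (𝓞 K) => Nv v ^ (-(2 : ℝ)) :=
    Pool.Agent.H921R2.TatePole.nm_summable (by norm_num)
  obtain ⟨r, hr⟩ : ∃ r : ℝ, r = Real.exp (-(t * Real.log 2)) := ⟨_, rfl⟩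
  have hr0 : 0 ≤ r := by rw [hr]; exact (Real.exp_pos _).le
  have hr1 : r < 1 := by
    rw [hr, Real.exp_lt_one_iff]
    have : 0 < t * Real.log 2 := mul_pos ht (Real.log_pos (by norm_num))
    linarith
  have h2 : Summable fun k : ℕ => r ^ k := summable_geometric_of_lt_one hr0 hr1
  have h3 := h1.mul_of_nonneg h2 (fun v => Real.rpow_nonneg (Nv_pos v).le _)
    (fun k => pow_nonneg hr0 k)
  refine Summable.of_nonneg_of_le (fun y => ?_) (fun y => ?_) h3
  · have := Real.rpow_nonneg (Nv_pos y.1).le (-(2 : ℝ))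
    positivity
  · refine mul_le_mul_of_nonneg_left ?_ (Real.rpow_nonneg (Nv_pos y.1).le _)
    rw [hr, ← Real.exp_nat_mul]
    refine Real.exp_le_exp.2 ?_
    have h4 : Real.log 2 ≤ Real.log (Nv y.1) := Real.log_le_log (by norm_num) (two_le_Nv y.1)
    have h5 : (0 : ℝ) ≤ (y.2 : ℝ) := Nat.cast_nonneg _
    have h6 : 0 < Real.log 2 := Real.log_pos (by norm_num)
    have h7 : (y.2 : ℝ) * Real.log 2 ≤ L2 y := by
      unfold L2
      nlinarith
    have h8 := mul_le_mul_of_nonneg_left h7 ht.le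
    linarith

/-- the sum far to the right -/
theorem S4_le {S : Finset (HeightOneSpectrum (𝓞 K))} {α : HeightOneSpectrum (𝓞 K) → Fin n → ℂ}
    {u : VX K → ℂ} (h : Rep n S α u) :
    ∑' x : VX K, ‖u x‖ ^ 2 * Real.exp (-((1 + 3) * LV x)) ≤ (n : ℝ) ^ 2 *
      ∑' y : HeightOneSpectrum (𝓞 K) × ℕ, Nv y.1 ^ (-(2 : ℝ)) * Real.exp (-(1 * L2 y)) := by
  obtain ⟨h1, h2⟩ := sum_U2 (h.summable (1 + 3) (by norm_num))
  rw [h2, ← tsum_mul_left]
  refine h1.tsum_le_tsum (fun y => ?_) ((summable_W one_pos).mul_left _)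
  have h3 := U2_le h y
  have h4 : Nv y.1 ^ (-(2 : ℝ)) = Real.exp (-(2 * Real.log (Nv y.1))) := by
    rw [Real.rpow_def_of_pos (Nv_pos y.1)]
    congr 1
    ring
  calc U2 u y * Real.exp (-((1 + 3) * L2 y)) ≤
      (n : ℝ) ^ 2 * Real.exp (L2 y) * Real.exp (-((1 + 3) * L2 y)) :=
        mul_le_mul_of_nonneg_right h3 (Real.exp_pos _).le
    _ = (n : ℝ) ^ 2 * Real.exp (-(2 * L2 y) + -(1 * L2 y)) := by
        rw [mul_assoc, ← Real.exp_add]
        congr 2
        ring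
    _ ≤ (n : ℝ) ^ 2 * Real.exp (-(2 * Real.log (Nv y.1)) + -(1 * L2 y)) := by
        refine mul_le_mul_of_nonneg_left (Real.exp_le_exp.2 ?_) (by positivity)
        have := L2_ge y
        linarith
    _ = _ := by rw [h4, Real.exp_add]

theorem summ_norm {u : VX K → ℂ} {s : ℂ}
    (h : Summable fun x : VX K => ‖u x‖ ^ 2 * Real.exp (-(s.re * LV x))) :
    ‖logRS u u s‖ ≤ ∑' x : VX K, ‖u x‖ ^ 2 * Real.exp (-(s.re * LV x)) := by
  have h1 : ∀ x : VX K, ‖u x * (starRingEnd ℂ) (u x) * Complex.exp (-(s * (LV x : ℂ)))‖ =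
      ‖u x‖ ^ 2 * Real.exp (-(s.re * LV x)) := by
    intro x
    rw [norm_mul, norm_mul, RCLike.norm_conj, Complex.norm_exp, ← sq]
    congr 2
    rw [Complex.neg_re, Complex.re_mul_ofReal]
  unfold logRS
  refine (norm_tsum_le_tsum_norm (h.congr fun x => (h1 x).symm)).trans (le_of_eq ?_)
  exact tsum_congr h1

theorem logRS_real (u : VX K → ℂ) (σ : ℝ) :
    logRS u u (σ : ℂ) = ((∑' x : VX K, ‖u x‖ ^ 2 * Real.exp (-(σ * LV x)) : ℝ) : ℂ) := by
  unfold logRS
  rw [Complex.ofReal_tsum]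
  refine tsum_congr fun x => ?_
  rw [Complex.mul_conj, Complex.normSq_eq_norm_sq]
  push_cast
  rfl

/-- the crude bound -/
theorem crude (hL : S_LEFT) (K : Type) [Field K] [NumberField K] (n N : ℕ) {η : ℝ} (hη : 0 < η)
    (hη1 : η ≤ 1) : ∃ C : ℝ, 0 < C ∧ ∀ (S : Finset (HeightOneSpectrum (𝓞 K)))
      (α : HeightOneSpectrum (𝓞 K) → Fin n → ℂ) (u : VX K → ℂ) (q : ℝ) (κ : Fin N → ℂ),
      Rep n S α u → RS u u q κ 1 →
      Real.exp (∑' x : VX K, ‖u x‖ ^ 2 * Real.exp (-((1 + η) * LV x))) ≤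
        C * (q * ∏ j, (1 + ‖κ j‖)) ^ (7 / 2 : ℝ) := by
  obtain ⟨C0, hC0, hleft⟩ := hL N 3 (by norm_num)
  have hpi := Real.pi_pos
  set M0 : ℝ := (n : ℝ) ^ 2 * ∑' y : HeightOneSpectrum (𝓞 K) × ℕ,
    Nv y.1 ^ (-(2 : ℝ)) * Real.exp (-(1 * L2 y)) with hM0
  set A : ℝ := 1 + 7 / 2 * N with hA
  have hA1 : 1 ≤ A := by
    have : (0 : ℝ) ≤ N := Nat.cast_nonneg N
    rw [hA]
    linarith
  set J : ℝ := JK A with hJ
  have hJ0 : 0 ≤ J := JK_nonneg A
  set c1 : ℝ := (4 + C0) * Real.exp (M0 + 25) * J with hc1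
  have hc10 : 0 ≤ c1 := by positivity
  refine ⟨(c1 + 1) / (2 * Real.pi * η), by positivity, fun S α u q κ hrep hRS => ?_⟩
  set P : ℝ := q * ∏ j, (1 + ‖κ j‖) with hP
  have hprod1 : (1 : ℝ) ≤ ∏ j, (1 + ‖κ j‖) := by
    refine Finset.one_le_prod fun j _ => ?_
    have := norm_nonneg (κ j)
    linarith
  have hP1 : 1 ≤ P := by
    rw [hP]
    exact one_le_mul_of_one_le_of_one_le hRS.one_le hprod1
  have hP0 : 0 < P := by linarith
  have hPp : 1 ≤ P ^ (7 / 2 : ℝ) := Real.one_le_rpow hP1 (by norm_num)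
  obtain ⟨F, hF, hFe, hFg, _, hFl⟩ := hleft K u u q κ 1 le_rfl hRS hrep.summable hrep.summable
  have hS4 := S4_le hrep
  rw [← hM0] at hS4
  obtain ⟨C1, A1, h1⟩ := hFg (-3) 5
  obtain ⟨C2, hC2, h2⟩ := rpow_exp A1
  set H : ℂ → ℂ := fun w => F (((1 + η : ℝ) : ℂ) + w) with hH
  have hHd : Differentiable ℂ H := hF.comp (by fun_prop)
  have hHb : ∀ w : ℂ, -(4 + η) ≤ w.re → w.re ≤ 3 → ‖H w‖ ≤ (|C1| * C2) * Real.exp |w.im| := by
    intro w hw1 hw2
    have e1 : (((1 + η : ℝ) : ℂ) + w).re = 1 + η + w.re := by simp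
    have e2 : (((1 + η : ℝ) : ℂ) + w).im = w.im := by simp
    have h3 := h1 (((1 + η : ℝ) : ℂ) + w) (by rw [e1]; linarith) (by rw [e1]; linarith)
    rw [e2] at h3
    refine h3.trans ?_
    have h4 := h2 |w.im| (abs_nonneg _)
    have h5 : 0 ≤ (1 + |w.im|) ^ A1 := Real.rpow_nonneg (by positivity) _
    calc C1 * (1 + |w.im|) ^ A1 ≤ |C1| * (1 + |w.im|) ^ A1 :=
          mul_le_mul_of_nonneg_right (le_abs_self _) h5
      _ ≤ |C1| * (C2 * Real.exp |w.im|) := mul_le_mul_of_nonneg_left h4 (abs_nonneg _)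
      _ = _ := by ring
  have hcross := cross (H := H) hHd (a := -(4 + η)) (b := 3) (by linarith) (by norm_num) hHb
  -- the right line
  have hJi := JK_int A
  have hR : ‖∫ v : ℝ, H (((3 : ℝ) : ℂ) + v * I) *
      (cexp ((((3 : ℝ) : ℂ) + v * I) ^ 2) / (((3 : ℝ) : ℂ) + v * I))‖ ≤
      4 * Real.exp (M0 + 25) * J := by
    have hg : Integrable fun v : ℝ => 4 * Real.exp (M0 + 25) * ((1 + |v|) ^ A * Real.exp (-v ^ 2)) :=
      hJi.const_mul _
    refine (norm_integral_le_of_norm_le hg (Eventually.of_forall fun v => ?_)).trans ?_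
    · have e1 : (((1 + η : ℝ) : ℂ) + (((3 : ℝ) : ℂ) + v * I)).re = 4 + η := by
        simp
        ring
      have e2 : (((1 + η : ℝ) : ℂ) + (((3 : ℝ) : ℂ) + v * I)).im = v := by simp
      have hFv : ‖H (((3 : ℝ) : ℂ) + v * I)‖ ≤ 4 * (1 + |v|) * Real.exp M0 := by
        show ‖F (((1 + η : ℝ) : ℂ) + (((3 : ℝ) : ℂ) + v * I))‖ ≤ _
        rw [hFe _ (by rw [e1]; linarith), pow_one, norm_mul]
        have h3 : ‖((1 + η : ℝ) : ℂ) + (((3 : ℝ) : ℂ) + v * I) - 1‖ ≤ 4 * (1 + |v|) := by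
          have h4 := Complex.norm_le_abs_re_add_abs_im
            (((1 + η : ℝ) : ℂ) + (((3 : ℝ) : ℂ) + v * I) - 1)
          rw [Complex.sub_re, Complex.sub_im, e1, e2, Complex.one_re, Complex.one_im, sub_zero] at h4
          have h5 : |4 + η - 1| ≤ 4 := by
            rw [abs_of_nonneg (by linarith)]
            linarith
          have := abs_nonneg v
          linarith
        have h4 : ‖cexp (logRS u u (((1 + η : ℝ) : ℂ) + (((3 : ℝ) : ℂ) + v * I)))‖ ≤
            Real.exp M0 := by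
          rw [Complex.norm_exp]
          refine Real.exp_le_exp.2 ((Complex.re_le_norm _).trans ?_)
          have hs := hrep.summable (4 + η) (by linarith)
          have h5 := summ_norm (u := u) (s := ((1 + η : ℝ) : ℂ) + (((3 : ℝ) : ℂ) + v * I))
            (by rw [e1]; exact hs)
          rw [e1] at h5
          refine h5.trans (le_trans ?_ hS4)
          refine hs.tsum_le_tsum (fun x => ?_) (hrep.summable (1 + 3) (by norm_num))
          refine mul_le_mul_of_nonneg_left (Real.exp_le_exp.2 ?_) (by positivity)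
          have := LV_nonneg' x
          nlinarith
        exact mul_le_mul h3 h4 (norm_nonneg _) (by positivity)
      have hq : ‖cexp ((((3 : ℝ) : ℂ) + v * I) ^ 2) / (((3 : ℝ) : ℂ) + v * I)‖ ≤
          Real.exp 25 * Real.exp (-v ^ 2) := by
        rw [norm_div, norm_exp_sq, ← Real.exp_add]
        have e3 : (((3 : ℝ) : ℂ) + v * I).re = 3 := by simp
        have e4 : (((3 : ℝ) : ℂ) + v * I).im = v := by simp
        rw [e3, e4]
        have h6 : 1 ≤ ‖((3 : ℝ) : ℂ) + v * I‖ := by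
          refine le_trans ?_ (Complex.abs_re_le_norm _)
          rw [e3]
          norm_num
        refine (div_le_self (Real.exp_pos _).le h6).trans (Real.exp_le_exp.2 ?_)
        linarith
      have hone : (1 : ℝ) ≤ 1 + |v| := by linarith [abs_nonneg v]
      have hpw : (1 + |v|) ≤ (1 + |v|) ^ A := by
        calc (1 + |v|) = (1 + |v|) ^ (1 : ℝ) := (Real.rpow_one _).symm
          _ ≤ _ := Real.rpow_le_rpow_of_exponent_le hone hA1
      rw [norm_mul]
      calc ‖H (((3 : ℝ) : ℂ) + v * I)‖ *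
          ‖cexp ((((3 : ℝ) : ℂ) + v * I) ^ 2) / (((3 : ℝ) : ℂ) + v * I)‖ ≤
          (4 * (1 + |v|) * Real.exp M0) * (Real.exp 25 * Real.exp (-v ^ 2)) :=
            mul_le_mul hFv hq (norm_nonneg _) (by positivity)
        _ = 4 * Real.exp (M0 + 25) * ((1 + |v|) * Real.exp (-v ^ 2)) := by
            rw [Real.exp_add]; ring
        _ ≤ _ := by
            refine mul_le_mul_of_nonneg_left ?_ (by positivity)
            exact mul_le_mul_of_nonneg_right hpw (Real.exp_pos _).le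
    · rw [integral_const_mul]
      exact le_rfl
  -- the left line
  have hLn : ‖∫ v : ℝ, H (((-(4 + η) : ℝ) : ℂ) + v * I) *
      (cexp ((((-(4 + η) : ℝ) : ℂ) + v * I) ^ 2) / (((-(4 + η) : ℝ) : ℂ) + v * I))‖ ≤
      C0 * Real.exp (M0 + 25) * P ^ (7 / 2 : ℝ) * J := by
    have hg : Integrable fun v : ℝ => C0 * Real.exp (M0 + 25) * P ^ (7 / 2 : ℝ) *
        ((1 + |v|) ^ A * Real.exp (-v ^ 2)) := hJi.const_mul _
    refine (norm_integral_le_of_norm_le hg (Eventually.of_forall fun v => ?_)).trans ?_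
    · have hone : (1 : ℝ) ≤ 1 + |v| := by linarith [abs_nonneg v]
      have hv0 : 0 < 1 + |v| := by linarith
      have hFv : ‖H (((-(4 + η) : ℝ) : ℂ) + v * I)‖ ≤
          C0 * (1 + |v|) ^ A * P ^ (7 / 2 : ℝ) * Real.exp M0 := by
        have e5 : H (((-(4 + η) : ℝ) : ℂ) + v * I) = F (((-3 : ℝ) : ℂ) + v * I) := by
          show F _ = F _
          congr 1
          push_cast
          ring
        rw [e5]
        refine (hFl v).trans ?_
        have h3 : ∏ j, (1 + ‖κ j + v * I‖) ≤ (∏ j, (1 + ‖κ j‖)) * (1 + |v|) ^ N := by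
          have h4 : (∏ j : Fin N, (1 + ‖κ j‖)) * (1 + |v|) ^ N =
              ∏ j : Fin N, ((1 + ‖κ j‖) * (1 + |v|)) := by
            rw [Finset.prod_mul_distrib]
            simp
          rw [h4]
          refine Finset.prod_le_prod (fun j _ => by positivity) fun j _ => ?_
          have h5 : ‖κ j + v * I‖ ≤ ‖κ j‖ + |v| := by
            refine (norm_add_le _ _).trans ?_
            rw [norm_mul, Complex.norm_I, mul_one, Complex.norm_real, Real.norm_eq_abs]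
          have h6 : 0 ≤ ‖κ j‖ * |v| := by positivity
          nlinarith
        have hq0 : 0 ≤ q := by linarith [hRS.one_le]
        have h7 : q * ∏ j, (1 + ‖κ j + v * I‖) ≤ P * (1 + |v|) ^ N := by
          calc _ ≤ q * ((∏ j, (1 + ‖κ j‖)) * (1 + |v|) ^ N) := mul_le_mul_of_nonneg_left h3 hq0
            _ = _ := by rw [hP]; ring
        have h8 : 0 ≤ q * ∏ j, (1 + ‖κ j + v * I‖) :=
          mul_nonneg hq0 (Finset.prod_nonneg fun j _ => by positivity)
        have h9 : (q * ∏ j, (1 + ‖κ j + v * I‖)) ^ ((1 / 2 : ℝ) + 3) ≤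
            P ^ (7 / 2 : ℝ) * (1 + |v|) ^ (7 / 2 * (N : ℝ)) := by
          have e6 : ((1 / 2 : ℝ) + 3) = 7 / 2 := by norm_num
          rw [e6]
          refine (Real.rpow_le_rpow h8 h7 (by norm_num)).trans (le_of_eq ?_)
          rw [Real.mul_rpow hP0.le (by positivity), ← Real.rpow_natCast (1 + |v|) N,
            ← Real.rpow_mul hv0.le]
          congr 2
          ring
        have h10 : Real.exp ((∑' x : VX K, ‖u x‖ ^ 2 * Real.exp (-((1 + 3) * LV x))) / 2 +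
            (∑' x : VX K, ‖u x‖ ^ 2 * Real.exp (-((1 + 3) * LV x))) / 2) ≤ Real.exp M0 := by
          refine Real.exp_le_exp.2 ?_
          rw [add_halves]
          exact hS4
        have h11 : (1 + |v|) ^ A = (1 + |v|) * (1 + |v|) ^ (7 / 2 * (N : ℝ)) := by
          rw [hA, Real.rpow_add hv0, Real.rpow_one]
        rw [pow_one]
        calc C0 * (1 + |v|) * (q * ∏ j, (1 + ‖κ j + v * I‖)) ^ ((1 / 2 : ℝ) + 3) *
            Real.exp ((∑' x : VX K, ‖u x‖ ^ 2 * Real.exp (-((1 + 3) * LV x))) / 2 +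
            (∑' x : VX K, ‖u x‖ ^ 2 * Real.exp (-((1 + 3) * LV x))) / 2) ≤
            C0 * (1 + |v|) * (P ^ (7 / 2 : ℝ) * (1 + |v|) ^ (7 / 2 * (N : ℝ))) * Real.exp M0 := by
              refine mul_le_mul (mul_le_mul_of_nonneg_left h9 (by positivity)) h10
                (Real.exp_pos _).le (by positivity)
          _ = _ := by rw [h11]; ring
      have hq : ‖cexp ((((-(4 + η) : ℝ) : ℂ) + v * I) ^ 2) / (((-(4 + η) : ℝ) : ℂ) + v * I)‖ ≤
          Real.exp 25 * Real.exp (-v ^ 2) := by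
        rw [norm_div, norm_exp_sq, ← Real.exp_add]
        have e3 : (((-(4 + η) : ℝ) : ℂ) + v * I).re = -(4 + η) := by simp
        have e4 : (((-(4 + η) : ℝ) : ℂ) + v * I).im = v := by simp
        rw [e3, e4]
        have h6 : 1 ≤ ‖((-(4 + η) : ℝ) : ℂ) + v * I‖ := by
          refine le_trans ?_ (Complex.abs_re_le_norm _)
          rw [e3, abs_neg, abs_of_pos (by linarith)]
          linarith
        refine (div_le_self (Real.exp_pos _).le h6).trans (Real.exp_le_exp.2 ?_)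
        nlinarith
      rw [norm_mul]
      calc ‖H (((-(4 + η) : ℝ) : ℂ) + v * I)‖ *
          ‖cexp ((((-(4 + η) : ℝ) : ℂ) + v * I) ^ 2) / (((-(4 + η) : ℝ) : ℂ) + v * I)‖ ≤
          (C0 * (1 + |v|) ^ A * P ^ (7 / 2 : ℝ) * Real.exp M0) *
            (Real.exp 25 * Real.exp (-v ^ 2)) :=
            mul_le_mul hFv hq (norm_nonneg _) (by positivity)
        _ = _ := by rw [Real.exp_add M0 25]; ring
    · rw [integral_const_mul]
      exact le_rfl
  have hH0 : H 0 = (η : ℂ) *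
      ((Real.exp (∑' x : VX K, ‖u x‖ ^ 2 * Real.exp (-((1 + η) * LV x))) : ℝ) : ℂ) := by
    show F (((1 + η : ℝ) : ℂ) + 0) = _
    rw [add_zero, hFe _ (by rw [Complex.ofReal_re]; linarith), pow_one, logRS_real,
      Complex.ofReal_exp]
    push_cast
    ring
  have hnorm : 2 * Real.pi * (η *
      Real.exp (∑' x : VX K, ‖u x‖ ^ 2 * Real.exp (-((1 + η) * LV x)))) ≤
      4 * Real.exp (M0 + 25) * J + C0 * Real.exp (M0 + 25) * P ^ (7 / 2 : ℝ) * J := by
    have h3 := congrArg norm hcross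
    have h4 : ‖2 * (Real.pi : ℂ) * H 0‖ = 2 * Real.pi * (η *
        Real.exp (∑' x : VX K, ‖u x‖ ^ 2 * Real.exp (-((1 + η) * LV x)))) := by
      rw [hH0, norm_mul, norm_mul, norm_mul, Complex.norm_real, Complex.norm_real, Complex.norm_real,
        Real.norm_of_nonneg hpi.le, Real.norm_of_nonneg hη.le,
        Real.norm_of_nonneg (Real.exp_pos _).le]
      norm_num
    rw [h4] at h3
    rw [← h3]
    exact (norm_sub_le _ _).trans (add_le_add hR hLn)
  rw [div_mul_eq_mul_div, le_div_iff₀ (by positivity)]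
  have h5 : 4 * Real.exp (M0 + 25) * J ≤ 4 * Real.exp (M0 + 25) * J * P ^ (7 / 2 : ℝ) :=
    le_mul_of_one_le_right (by positivity) hPp
  have h6 : (c1 + 1) * P ^ (7 / 2 : ℝ) = 4 * Real.exp (M0 + 25) * J * P ^ (7 / 2 : ℝ) +
      C0 * Real.exp (M0 + 25) * P ^ (7 / 2 : ℝ) * J + P ^ (7 / 2 : ℝ) := by
    rw [hc1]; ring
  rw [h6]
  have h7 : Real.exp (∑' x : VX K, ‖u x‖ ^ 2 * Real.exp (-((1 + η) * LV x))) * (2 * Real.pi * η) =
      2 * Real.pi * (η * Real.exp (∑' x : VX K, ‖u x‖ ^ 2 * Real.exp (-((1 + η) * LV x)))) := by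
    ring
  rw [h7]
  linarith

end

theorem diag (hL : S_LEFT) : S_DIAG := by
  intro K _ _ n N η ε hη hε
  set η₁ : ℝ := min η 1 with hη₁
  have h10 : 0 < η₁ := lt_min hη one_pos
  have h11 : η₁ ≤ 1 := min_le_right _ _
  have h12 : η₁ ≤ η := min_le_left _ _
  obtain ⟨C, hC0, hC⟩ := crude hL K n N (η := η₁ / 2) (by positivity) (by linarith)
  obtain ⟨r, hr⟩ := exists_nat_ge ((7 / 2) / ε + 1)
  have h3ε : 0 < (7 / 2) / ε := by positivity
  have hr1 : (1 : ℝ) ≤ r := by linarith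
  have hr0 : (0 : ℝ) < r := by linarith
  have hrε : (7 / 2) / (r : ℝ) ≤ ε := by
    rw [div_le_iff₀ hr0]
    have : (7 / 2) / ε ≤ r := by linarith
    rw [div_le_iff₀ hε] at this
    linarith
  set p0 : ℝ := Real.exp (2 / η₁ * Real.log r) with hp0
  have hp00 : 0 < p0 := Real.exp_pos _
  set W : ℝ := ∑' y : HeightOneSpectrum (𝓞 K) × ℕ,
    Nv y.1 ^ (-(2 : ℝ)) * Real.exp (-(η₁ * L2 y)) with hW
  refine ⟨Real.exp ((n : ℝ) ^ 2 * p0 ^ 2 * W + |Real.log C|), Real.exp_pos _,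
    fun S α u q κ hrep hRS => ?_⟩
  set P : ℝ := q * ∏ j, (1 + ‖κ j‖) with hP
  have hprod1 : (1 : ℝ) ≤ ∏ j, (1 + ‖κ j‖) := by
    refine Finset.one_le_prod fun j _ => ?_
    have := norm_nonneg (κ j)
    linarith
  have hP1 : 1 ≤ P := by
    rw [hP]
    exact one_le_mul_of_one_le_of_one_le hRS.one_le hprod1
  have hP0 : 0 < P := by linarith
  have hlogP : 0 ≤ Real.log P := Real.log_nonneg hP1
  obtain ⟨hS1, hE1⟩ := sum_U2 (hrep.summable (1 + η) (by linarith))
  obtain ⟨hS2, hE2⟩ := sum_U2 (hrep.summable (1 + η₁ / 2) (by linarith))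
  have hS3 := summable_W (K := K) h10
  -- comparison of the terms
  have hterm : ∀ y : HeightOneSpectrum (𝓞 K) × ℕ, U2 u y * Real.exp (-((1 + η) * L2 y)) ≤
      1 / r * (U2 u y * Real.exp (-((1 + η₁ / 2) * L2 y))) +
        (n : ℝ) ^ 2 * p0 ^ 2 * (Nv y.1 ^ (-(2 : ℝ)) * Real.exp (-(η₁ * L2 y))) := by
    intro y
    have hL := L2_nonneg y
    have hL1 := L2_ge y
    have hu := U2_nonneg u y
    have hq0 : (0 : ℝ) < Nv y.1 := Nv_pos y.1
    have e0 : Real.exp (-((1 + η) * L2 y)) ≤ Real.exp (-((1 + η₁) * L2 y)) := by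
      refine Real.exp_le_exp.2 ?_
      nlinarith
    refine (mul_le_mul_of_nonneg_left e0 hu).trans ?_
    have hA : 0 ≤ 1 / r * (U2 u y * Real.exp (-((1 + η₁ / 2) * L2 y))) := by positivity
    have hB : 0 ≤ (n : ℝ) ^ 2 * p0 ^ 2 * (Nv y.1 ^ (-(2 : ℝ)) * Real.exp (-(η₁ * L2 y))) := by
      have := Real.rpow_nonneg hq0.le (-(2 : ℝ))
      positivity
    rcases le_or_gt p0 (Nv y.1) with hp | hp
    · have h1 : 2 / η₁ * Real.log r ≤ Real.log (Nv y.1) := by
        rw [Real.le_log_iff_exp_le hq0]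
        exact hp
      have h2 : Real.log r ≤ η₁ / 2 * L2 y := by
        have h3 : Real.log r = η₁ / 2 * (2 / η₁ * Real.log r) := by field_simp
        rw [h3]
        exact mul_le_mul_of_nonneg_left (h1.trans hL1) (by positivity)
      have h3 : Real.exp (-((1 + η₁) * L2 y)) ≤ 1 / r * Real.exp (-((1 + η₁ / 2) * L2 y)) := by
        have h4 : 1 / (r : ℝ) = Real.exp (-(Real.log r)) := by
          rw [Real.exp_neg, Real.exp_log hr0, one_div]
        rw [h4, ← Real.exp_add]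
        refine Real.exp_le_exp.2 ?_
        linarith
      have h5 := mul_le_mul_of_nonneg_left h3 hu
      have h6 : U2 u y * (1 / r * Real.exp (-((1 + η₁ / 2) * L2 y))) =
          1 / r * (U2 u y * Real.exp (-((1 + η₁ / 2) * L2 y))) := by ring
      linarith
    · have h1 := U2_le hrep y
      have h2 : U2 u y * Real.exp (-((1 + η₁) * L2 y)) ≤ (n : ℝ) ^ 2 * Real.exp (-(η₁ * L2 y)) := by
        calc _ ≤ (n : ℝ) ^ 2 * Real.exp (L2 y) * Real.exp (-((1 + η₁) * L2 y)) :=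
              mul_le_mul_of_nonneg_right h1 (Real.exp_pos _).le
          _ = _ := by
              rw [mul_assoc, ← Real.exp_add]
              congr 2
              ring
      have h3 : 1 ≤ p0 ^ 2 * Nv y.1 ^ (-(2 : ℝ)) := by
        rw [Real.rpow_neg hq0.le, Real.rpow_ofNat, ← div_eq_mul_inv, le_div_iff₀ (by positivity), one_mul]
        exact pow_le_pow_left₀ hq0.le hp.le 2
      have h4 : (n : ℝ) ^ 2 * Real.exp (-(η₁ * L2 y)) * 1 ≤
          (n : ℝ) ^ 2 * Real.exp (-(η₁ * L2 y)) * (p0 ^ 2 * Nv y.1 ^ (-(2 : ℝ))) :=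
        mul_le_mul_of_nonneg_left h3 (by positivity)
      have h5 : (n : ℝ) ^ 2 * Real.exp (-(η₁ * L2 y)) * (p0 ^ 2 * Nv y.1 ^ (-(2 : ℝ))) =
          (n : ℝ) ^ 2 * p0 ^ 2 * (Nv y.1 ^ (-(2 : ℝ)) * Real.exp (-(η₁ * L2 y))) := by ring
      linarith
  have hsum : ∑' x : VX K, ‖u x‖ ^ 2 * Real.exp (-((1 + η) * LV x)) ≤
      1 / r * (∑' x : VX K, ‖u x‖ ^ 2 * Real.exp (-((1 + η₁ / 2) * LV x))) +
        (n : ℝ) ^ 2 * p0 ^ 2 * W := by
    rw [hE1, hE2, hW, ← tsum_mul_left, ← tsum_mul_left, ← (hS2.mul_left _).tsum_add (hS3.mul_left _)]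
    exact hS1.tsum_le_tsum hterm ((hS2.mul_left _).add (hS3.mul_left _))
  have hcr := hC S α u q κ hrep hRS
  rw [← hP] at hcr
  have hlog : ∑' x : VX K, ‖u x‖ ^ 2 * Real.exp (-((1 + η₁ / 2) * LV x)) ≤
      Real.log C + 7 / 2 * Real.log P := by
    have h1 := Real.log_le_log (Real.exp_pos _) hcr
    rw [Real.log_exp, Real.log_mul hC0.ne' (by positivity), Real.log_rpow hP0] at h1
    exact h1
  rw [Real.rpow_def_of_pos hP0, ← Real.exp_add]
  refine Real.exp_le_exp.2 (hsum.trans ?_)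
  have h1 : 1 / (r : ℝ) * (∑' x : VX K, ‖u x‖ ^ 2 * Real.exp (-((1 + η₁ / 2) * LV x))) ≤
      1 / (r : ℝ) * (Real.log C + 7 / 2 * Real.log P) := mul_le_mul_of_nonneg_left hlog (by positivity)
  have h2 : 1 / (r : ℝ) * (Real.log C + 7 / 2 * Real.log P) =
      1 / (r : ℝ) * Real.log C + (7 / 2) / (r : ℝ) * Real.log P := by ring
  have h3 : 1 / (r : ℝ) * Real.log C ≤ |Real.log C| := by
    refine (le_abs_self _).trans ?_
    rw [abs_mul, abs_of_pos (by positivity : (0 : ℝ) < 1 / r)]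
    refine mul_le_of_le_one_left (abs_nonneg _) ?_
    rw [div_le_one hr0]
    exact hr1
  have h4 : (7 / 2) / (r : ℝ) * Real.log P ≤ Real.log P * ε := by
    rw [mul_comm (Real.log P)]
    exact mul_le_mul_of_nonneg_right hrε hlogP
  linarith

end Pool.Agent.U828.DU.D
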