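import Pool.Agent.N846.DU.Stm
import Pool.Agent.N846.DT.PairP

/-!
# Removing the Euler factor at a finite place

The part `EUL` of the project `N846/DU` (the density theorem over number fields), written by helper828 after
`Pool.Agent.N846.DT.PairP` (the case of the rational numbers and of unramified representations).
-/

set_option autoImplicit false

namespace Pool.Agent.U828.DU

open Complex MeasureTheory NumberField IsDedekindDomain
open Pool.Agent.N846.DT (PairF)
open Pool.Agent.N846.DT.PP (exp_fac norm_b)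
open Pool.Agent.N846.DU

variable {K : Type} [Field K] [NumberField K] {n : ℕ}

theorem Nv_two (v : HeightOneSpectrum (𝓞 K)) : (2 : ℝ) ≤ Nv v := by
  unfold Nv
  have h0 : Ideal.absNorm v.asIdeal ≠ 0 := by
    rw [Ne, Ideal.absNorm_eq_zero_iff]
    exact v.ne_bot
  have h1 : Ideal.absNorm v.asIdeal ≠ 1 := by
    rw [Ne, Ideal.absNorm_eq_one_iff]
    exact v.isPrime.ne_top
  have h2 : 2 ≤ Ideal.absNorm v.asIdeal := by omega
  exact_mod_cast h2

theorem Nv_pos' (v : HeightOneSpectrum (𝓞 K)) : (0 : ℝ) < Nv v := by linarith [Nv_two v]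

theorem norm_w (v : HeightOneSpectrum (𝓞 K)) (s : ℂ) :
    ‖Complex.exp (-(s * (Real.log (Nv v) : ℂ)))‖ = Real.exp (-(s.re * Real.log (Nv v))) := by
  rw [Complex.norm_exp, Complex.neg_re, Complex.re_mul_ofReal]

theorem norm_w3 (v : HeightOneSpectrum (𝓞 K)) {s : ℂ} (hs : 3 ≤ s.re) :
    ‖Complex.exp (-(s * (Real.log (Nv v) : ℂ)))‖ ≤ (Nv v ^ 3)⁻¹ := by
  rw [norm_w]
  have hl : 0 ≤ Real.log (Nv v) := Real.log_nonneg (by linarith [Nv_two v])
  have h1 : Real.exp (-(s.re * Real.log (Nv v))) ≤ Real.exp (-(3 * Real.log (Nv v))) := by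
    apply Real.exp_le_exp.2
    nlinarith
  refine h1.trans (le_of_eq ?_)
  rw [Real.exp_neg]
  congr 1
  have h2 := Real.exp_nat_mul (Real.log (Nv v)) 3
  push_cast at h2
  rw [h2, Real.exp_log (Nv_pos' v)]

theorem cexp_LV (v : HeightOneSpectrum (𝓞 K)) (k j : ℕ) (s : ℂ) :
    Complex.exp (-(s * (LV ((v, k, j) : VX K) : ℂ))) = Complex.exp (-(s * (Real.log (Nv v) : ℂ))) ^ (k + 1) := by
  rw [← Complex.exp_nat_mul]
  congr 1
  unfold LV
  push_cast
  ring

theorem summable_g {u w : VX K → ℂ}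
    (hu : ∀ σ : ℝ, 1 < σ → Summable fun x : VX K => ‖u x‖ ^ 2 * Real.exp (-(σ * LV x)))
    (hw : ∀ σ : ℝ, 1 < σ → Summable fun x : VX K => ‖w x‖ ^ 2 * Real.exp (-(σ * LV x))) {s : ℂ} (hs : 3 ≤ s.re) :
    Summable fun x : VX K => u x * (starRingEnd ℂ) (w x) * Complex.exp (-(s * (LV x : ℂ))) := by
  have h1 := (hu s.re (by linarith)).add (hw s.re (by linarith))
  refine Summable.of_norm_bounded h1 fun x => ?_
  rw [norm_mul, norm_mul, RCLike.norm_conj, Complex.norm_exp, Complex.neg_re, Complex.re_mul_ofReal]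
  have h2 : 0 < Real.exp (-(s.re * LV x)) := Real.exp_pos _
  have h3 : ‖u x‖ * ‖w x‖ ≤ ‖u x‖ ^ 2 + ‖w x‖ ^ 2 := by
    nlinarith [sq_nonneg (‖u x‖ - ‖w x‖), sq_nonneg (‖u x‖), sq_nonneg (‖w x‖)]
  calc ‖u x‖ * ‖w x‖ * Real.exp (-(s.re * LV x)) ≤ (‖u x‖ ^ 2 + ‖w x‖ ^ 2) * Real.exp (-(s.re * LV x)) :=
        mul_le_mul_of_nonneg_right h3 h2.le
    _ = _ := by ring

theorem mul_u {S S' : Finset (HeightOneSpectrum (𝓞 K))} {α β : HeightOneSpectrum (𝓞 K) → Fin n → ℂ}
    {u w : VX K → ℂ} (hu : Rep n S α u) (hw : Rep n S' β w) {v : HeightOneSpectrum (𝓞 K)} (hv : v ∉ S)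
    (hv' : v ∉ S') (k : ℕ) :
    u (v, k, 0) * (starRingEnd ℂ) (w (v, k, 0)) =
      (∑ ij : Fin n × Fin n, (α v ij.1 * (starRingEnd ℂ) (β v ij.2)) ^ (k + 1)) / ((k : ℂ) + 1) := by
  rw [hu.unram v hv, hw.unram v hv', if_pos rfl, if_pos rfl]
  have h1 : ((Real.sqrt ((k : ℝ) + 1) : ℝ) : ℂ) * ((Real.sqrt ((k : ℝ) + 1) : ℝ) : ℂ) = (k : ℂ) + 1 := by
    rw [← Complex.ofReal_mul, Real.mul_self_sqrt (by positivity)]
    push_cast
    rfl
  rw [map_div₀, Complex.conj_ofReal, div_mul_div_comm, h1, map_sum, Finset.sum_mul_sum, Fintype.sum_prod_type]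
  simp_rw [map_pow, mul_pow]

/-- the Euler factor at a place which is unramified for both representations can be removed -/
theorem eul : S_EUL := by
  intro K _ _ n v S S' α β u w F hu hw hv hv' hF
  have hvp := Nv_pos' v
  have hv2 := Nv_two v
  refine ⟨?_, ?_, ?_⟩
  · refine hF.diff.mul ?_
    unfold EV
    refine Differentiable.fun_finsetProd fun i _ => Differentiable.fun_finsetProd fun j _ => ?_
    fun_prop
  · intro s hs
    set W : ℂ := Complex.exp (-(s * (Real.log (Nv v) : ℂ))) with hW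
    have hz : ∀ ij : Fin n × Fin n, ‖(α v ij.1 * (starRingEnd ℂ) (β v ij.2)) * W‖ < 1 / 2 := by
      intro ij
      rw [norm_mul]
      calc ‖α v ij.1 * (starRingEnd ℂ) (β v ij.2)‖ * ‖W‖ ≤ Nv v * (Nv v ^ 3)⁻¹ :=
            mul_le_mul (norm_b hvp (hu.bound v hv ij.1) (hw.bound v hv' ij.2)) (norm_w3 v hs)
              (norm_nonneg _) hvp.le
        _ = (Nv v ^ 2)⁻¹ := by field_simp
        _ < 1 / 2 := by
            rw [one_div]
            apply inv_strictAnti₀ (by norm_num)
            nlinarith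
    obtain ⟨e1, e2, e3⟩ := exp_fac (b := fun ij : Fin n × Fin n => α v ij.1 * (starRingEnd ℂ) (β v ij.2)) hz
    have hg := summable_g hu.summable hw.summable hs
    have hd : HasSum (fun x : VX K => (u x * (starRingEnd ℂ) (w x) * Complex.exp (-(s * (LV x : ℂ)))) -
        (uV v u x * (starRingEnd ℂ) (uV v w x) * Complex.exp (-(s * (LV x : ℂ)))))
        (∑ ij : Fin n × Fin n, -Complex.log (1 - (α v ij.1 * (starRingEnd ℂ) (β v ij.2)) * W)) := by
      have hinj : Function.Injective (fun k : ℕ => ((v, k, 0) : VX K)) := by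
        intro a b h
        simpa using h
      refine (hinj.hasSum_iff ?_).1 ?_
      · rintro ⟨x, k, j⟩ hx
        by_cases h1 : x = v
        · subst h1
          have hj : j ≠ 0 := by
            rintro rfl
            exact hx ⟨k, rfl⟩
          have h2 : u (x, k, j) = 0 := by rw [hu.unram x hv, if_neg hj]
          simp [uV, h2]
        · simp [uV, h1]
      · refine e1.congr_fun fun k => ?_
        simp only [Function.comp_apply, uV, if_true, zero_mul, sub_zero]
        rw [mul_u hu hw hv hv', cexp_LV]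
    have hP : HasSum (fun x : VX K => uV v u x * (starRingEnd ℂ) (uV v w x) * Complex.exp (-(s * (LV x : ℂ))))
        ((∑' x, u x * (starRingEnd ℂ) (w x) * Complex.exp (-(s * (LV x : ℂ)))) -
          ∑ ij : Fin n × Fin n, -Complex.log (1 - (α v ij.1 * (starRingEnd ℂ) (β v ij.2)) * W)) := by
      refine (hg.hasSum.sub hd).congr_fun fun x => ?_
      ring
    rw [hP.tsum_eq, Complex.exp_sub, ← hF.eq s hs, e2, div_inv_eq_mul, Fintype.prod_prod_type]
    rfl
  · intro a b
    obtain ⟨C, A, hCA⟩ := hF.growth a b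
    have hl : 0 ≤ Real.log (Nv v) := Real.log_nonneg (by linarith)
    set M : ℝ := 1 + Nv v * Real.exp (|a| * Real.log (Nv v)) with hM
    have hM0 : 0 < M := by positivity
    refine ⟨C * (M ^ n) ^ n, A, fun s h1 h2 => ?_⟩
    have h3 := hCA s h1 h2
    rw [norm_mul]
    have h4 : ‖EV v α β s‖ ≤ (M ^ n) ^ n := by
      unfold EV
      rw [norm_prod]
      refine (Finset.prod_le_prod (g := fun _ => M ^ n) (fun i _ => norm_nonneg _) fun i _ => ?_).trans ?_
      · rw [norm_prod]
        refine (Finset.prod_le_prod (g := fun _ => M) (fun i _ => norm_nonneg _) fun j _ => ?_).trans ?_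
        · refine (norm_sub_le _ _).trans ?_
          rw [norm_one, norm_mul, norm_w]
          have h5 : Real.exp (-(s.re * Real.log (Nv v))) ≤ Real.exp (|a| * Real.log (Nv v)) := by
            apply Real.exp_le_exp.2
            have : -s.re ≤ |a| := by linarith [neg_abs_le a]
            nlinarith
          have h6 := mul_le_mul (norm_b hvp (hu.bound v hv i) (hw.bound v hv' j)) h5 (Real.exp_pos _).le hvp.le
          linarith
        · simp
      · simp
    calc ‖F s‖ * _ ≤ (C * (1 + |s.im|) ^ A) * (M ^ n) ^ n :=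
          mul_le_mul h3 h4 (norm_nonneg _) ((norm_nonneg _).trans h3)
      _ = _ := by ring

end Pool.Agent.U828.DU
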